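import Pool.Agent.MP_542436_nt.Sp.Spec

set_option autoImplicit false

namespace Pool.Agent.MP_542436_nt.H3

open Polynomial Finset Pool.Agent.MP_542436_nt.Sp

namespace ContAux

/-- The divided difference. -/
theorem divdiff (F : Type) [Field F] [CharZero F] {D : ℕ} {P : ℤ[X]} (hP : P.natDegree ≤ D)
    {S : Finset ℤ} (hS : S.card = D + 1) :
    ((P.coeff D : ℤ) : F) =
      ∑ i ∈ S, ((P.eval i : ℤ) : F) / ∏ j ∈ S.erase i, ((i - j : ℤ) : F) := by
  have h := Lagrange.coeff_eq_sum (s := S) (v := fun i : ℤ => (i : F))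
    (fun i _ j _ e => Int.cast_injective e) (P := P.map (Int.castRingHom F)) (by
      rw [hS]
      refine degree_map_le.trans_lt (degree_le_natDegree.trans_lt ?_)
      exact_mod_cast Nat.lt_succ_of_le hP)
  rw [hS, Nat.add_sub_cancel, coeff_map, eq_intCast] at h
  rw [h]
  refine sum_congr rfl fun i _ => ?_
  rw [eval_intCast_map]
  simp

theorem term_le {F : Type} [NormedField F] {D : ℕ} {S : Finset ℤ} (hS : S.card = D + 1)
    {u : F} {a b : ℝ} (hb : 0 < b) (hu : ‖u‖ ≤ a) {i : ℤ} (hi : i ∈ S)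
    (h : ∀ j ∈ S, j ≠ i → b ≤ ‖((i - j : ℤ) : F)‖) :
    ‖u / ∏ j ∈ S.erase i, ((i - j : ℤ) : F)‖ ≤ a / b ^ D := by
  rw [norm_div, norm_prod]
  refine div_le_div₀ ((norm_nonneg u).trans hu) hu (pow_pos hb D) ?_
  have : b ^ D = ∏ _j ∈ S.erase i, b := by
    rw [prod_const, card_erase_of_mem hi, hS, Nat.add_sub_cancel]
  rw [this]
  exact prod_le_prod (fun _ _ => hb.le) fun j hj => h j (mem_of_mem_erase hj) (ne_of_mem_erase hj)

theorem image_le {β : Type} [DecidableEq β] (f : ℤ → β) (D : ℕ) (Y : Finset ℤ)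
    (h : ∀ S ⊆ Y, S.card = D + 1 → Set.InjOn f S → False) : (Y.image f).card ≤ D := by
  by_contra h1
  obtain ⟨u, hu, hf, e⟩ := exists_subset_injOn_image_eq_of_surjOn (f := f) (Y : Set ℤ)
    (Y.image f) (by intro b hb; simpa using hb)
  have h2 : D + 1 ≤ u.card := by
    rw [← card_image_of_injOn hf, e]; omega
  obtain ⟨S, hS, hc⟩ := exists_subset_card_eq h2
  exact h S (fun x hx => hu (hS hx)) hc (hf.mono hS)

theorem refine (f : ℕ → ℤ → ℤ) (D N : ℕ) (A : Finset ℕ) : ∀ Y : Finset ℤ,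
    (∀ p ∈ A, (Y.image (f p)).card ≤ D) →
    (∀ Z ⊆ Y, (∀ p ∈ A, ∀ y ∈ Z, ∀ y' ∈ Z, f p y = f p y') → Z.card ≤ N) →
    Y.card ≤ D ^ A.card * N := by
  induction A using Finset.induction_on with
  | empty =>
    intro Y _ h
    simpa using h Y Subset.rfl (by simp)
  | insert p A hp ih =>
    intro Y h1 h2
    rw [card_insert_of_notMem hp, pow_succ, mul_right_comm]
    refine (card_le_mul_card_image (f := f p) Y (D ^ A.card * N) fun b _ => ?_).trans
      (Nat.mul_le_mul_left _ (h1 p (mem_insert_self _ _)))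
    refine ih _ (fun q hq => (card_le_card (image_subset_image (filter_subset _ _))).trans
      (h1 q (mem_insert_of_mem hq))) fun Z hZ h => h2 Z (hZ.trans (filter_subset _ _)) ?_
    intro q hq y hy y' hy'
    rcases mem_insert.1 hq with rfl | hq
    · exact (mem_filter.1 (hZ hy)).2.trans (mem_filter.1 (hZ hy')).2.symm
    · exact h q hq y hy y' hy'

/-- The `p`-adic step. -/
theorem padic {p : ℕ} (hp : p.Prime) {D : ℕ} {P : ℤ[X]} (hP : P.natDegree ≤ D) {k v e : ℕ}
    (hv : ¬ (p : ℤ) ^ (v + 1) ∣ P.coeff D) (he : e = 0 ∨ v + 1 + D * e ≤ k + D) (hD : 1 ≤ D)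
    {Y : Finset ℤ} (hY : ∀ y ∈ Y, (p : ℤ) ^ k ∣ P.eval y) :
    (Y.image fun y => y % (p : ℤ) ^ e).card ≤ D := by
  refine image_le _ D Y fun S hS hc hinj => ?_
  have : Fact p.Prime := ⟨hp⟩
  have hp1 : (1 : ℝ) < p := by exact_mod_cast hp.one_lt
  have hp0 : (0 : ℝ) < p := by linarith
  have hne : ∀ i ∈ S, ∀ j ∈ S, j ≠ i → ¬ (p : ℤ) ^ e ∣ i - j := fun i hi j hj hij h =>
    hij (hinj hj hi (Int.modEq_iff_dvd.2 h))
  rcases he with rfl | he
  · obtain ⟨i, hi, j, hj, hij⟩ := one_lt_card.1 (show 1 < S.card by omega)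
    exact hne i hi j hj hij.symm (by simp)
  refine hv ((Padic.norm_int_le_pow_iff_dvd (p := p) _ _).1 ?_)
  rw [divdiff ℚ_[p] hP hc]
  refine IsUltrametricDist.norm_sum_le_of_forall_le_of_nonneg (by positivity) fun i hi => ?_
  refine (term_le hc (a := (p : ℝ) ^ (-k : ℤ)) (b := (p : ℝ) ^ ((-e : ℤ) + 1)) (by positivity)
    ((Padic.norm_int_le_pow_iff_dvd _ _).2 (hY i (hS hi))) hi fun j hj hij => ?_).trans ?_
  · have := hne i hi j hj hij
    rw [← Padic.norm_int_le_pow_iff_dvd (p := p), Padic.norm_le_pow_iff_norm_lt_pow_add_one,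
      not_lt] at this
    exact this
  · rw [← zpow_natCast, ← zpow_mul, ← zpow_sub₀ hp0.ne']
    refine zpow_le_zpow_right₀ hp1.le ?_
    have : ((v + 1 + D * e : ℕ) : ℤ) ≤ ((k + D : ℕ) : ℤ) := by exact_mod_cast he
    push_cast at this ⊢
    linarith

theorem far {L y y' : ℤ} (hL : 0 < L) (h1 : y / L % 2 = y' / L % 2) (h2 : y / L ≠ y' / L) :
    L ≤ |y - y'| := by
  have e1 := Int.mul_ediv_add_emod y L
  have e2 := Int.mul_ediv_add_emod y' L
  have a1 := Int.emod_nonneg y hL.ne'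
  have a2 := Int.emod_lt_of_pos y hL
  have b1 := Int.emod_nonneg y' hL.ne'
  have b2 := Int.emod_lt_of_pos y' hL
  rcases (show y / L + 2 ≤ y' / L ∨ y' / L + 2 ≤ y / L by omega) with h | h
  · exact le_abs.2 (Or.inr (by nlinarith))
  · exact le_abs.2 (Or.inl (by nlinarith))

/-- The archimedean step. -/
theorem arch {D : ℕ} {P : ℤ[X]} (hP : P.natDegree ≤ D) {M : ℤ} (hM : 0 < M) {r : ℕ} (hr : 0 < r)
    {a : ℝ} (ha : (D + 1) * (a / ((r * M : ℤ) : ℝ) ^ D) < |((P.coeff D : ℤ) : ℝ)|)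
    {Z : Finset ℤ} (h1 : ∀ y ∈ Z, |((P.eval y : ℤ) : ℝ)| ≤ a)
    (h2 : ∀ y ∈ Z, ∀ y' ∈ Z, M ∣ y - y') : Z.card ≤ r * D * 2 := by
  have hL : (0 : ℤ) < r * M := mul_pos (by exact_mod_cast hr) hM
  refine (card_le_mul_card_image (f := fun y => y / (r * M) % 2) Z (r * D) fun b _ => ?_).trans
    (Nat.mul_le_mul_left _ ?_)
  · refine (card_le_mul_card_image (f := fun y => y / (r * M)) _ r fun c _ => ?_).trans
      (Nat.mul_le_mul_left _ (image_le _ D _ fun S hS hc hinj => ?_))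
    · have hc : (Ico (0 : ℤ) r).card = r := by simp
      refine le_of_le_of_eq (card_le_card_of_injOn (fun y => y % (r * M) / M) (fun y _ => ?_)
        fun y hy y' hy' e => ?_) hc
      · exact mem_coe.2 (mem_Ico.2 ⟨Int.ediv_nonneg (Int.emod_nonneg y hL.ne') hM.le,
          (Int.ediv_lt_iff_lt_mul hM).2 (Int.emod_lt_of_pos y hL)⟩)
      · obtain ⟨hy, c1⟩ := mem_filter.1 (mem_coe.1 hy)
        obtain ⟨hy', c2⟩ := mem_filter.1 (mem_coe.1 hy')
        have e1 := Int.mul_ediv_add_emod y (r * M)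
        have e2 := Int.mul_ediv_add_emod y' (r * M)
        have e3 := Int.mul_ediv_add_emod (y % (r * M)) M
        have e4 := Int.mul_ediv_add_emod (y' % (r * M)) M
        have e5 : y % M = y' % M :=
          (Int.modEq_iff_dvd.2 (h2 y (mem_filter.1 hy).1 y' (mem_filter.1 hy').1)).symm
        rw [Int.emod_emod_of_dvd _ (dvd_mul_left M r)] at e3 e4
        simp only at e
        rw [c1] at e1
        rw [c2] at e2
        rw [e, e5] at e3
        linarith
    · refine absurd ha (not_lt.2 ?_)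
      rw [divdiff ℝ hP hc, ← Real.norm_eq_abs]
      refine (norm_sum_le _ _).trans ((sum_le_card_nsmul S _ _ fun i hi => ?_).trans_eq
        (by rw [hc, nsmul_eq_mul, Nat.cast_succ]))
      refine term_le hc (by exact_mod_cast hL) (h1 i (mem_filter.1 (hS hi)).1) hi
        fun j hj hij => ?_
      rw [Real.norm_eq_abs, ← Int.cast_abs, Int.cast_le]
      exact far hL ((mem_filter.1 (hS hi)).2.trans (mem_filter.1 (hS hj)).2.symm)
        fun e => hij (hinj hi hj e).symm
  · refine (card_le_card (t := {0, 1}) fun b hb => ?_).trans (by simp)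
    obtain ⟨y, -, rfl⟩ := mem_image.1 hb
    simp only [mem_insert, mem_singleton]
    omega

end ContAux

open ContAux

theorem cont : ContStmt := by
  intro D c hD hc
  refine ⟨(D + 3) * D * 2, by positivity, fun P T G Y hP hPc hT hG hY => ?_⟩
  have hT' : T.natAbs ≠ 0 := Int.natAbs_ne_zero.2 hT
  have hc' : c.natAbs ≠ 0 := Int.natAbs_ne_zero.2 hc
  obtain ⟨e, he1, he2⟩ : ∃ e : ℕ → ℕ, (∀ p, e p = 0 ∨
      c.natAbs.factorization p + 1 + D * e p ≤ T.natAbs.factorization p + D) ∧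
      ∀ p, T.natAbs.factorization p ≤ c.natAbs.factorization p + e p * D := by
    refine ⟨fun p => (T.natAbs.factorization p - c.natAbs.factorization p + D - 1) / D,
      fun p => ?_, fun p => ?_⟩
    · beta_reduce
      generalize T.natAbs.factorization p = k
      generalize c.natAbs.factorization p = v
      have h1 := Nat.mul_div_le (k - v + D - 1) D
      rcases le_or_gt k v with h | h
      · exact Or.inl (Nat.div_eq_of_lt (by omega))
      · exact Or.inr (by omega)
    · beta_reduce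
      generalize T.natAbs.factorization p = k
      generalize c.natAbs.factorization p = v
      have h1 := Nat.div_add_mod (k - v + D - 1) D
      have h2 := Nat.mod_lt (k - v + D - 1) hD
      rw [mul_comm] at h1
      omega
  obtain ⟨M, hM⟩ : ∃ M : ℕ, M = ∏ p ∈ T.natAbs.primeFactors, p ^ e p := ⟨_, rfl⟩
  have hM0 : 0 < M := by
    rw [hM]
    exact prod_pos fun p hp => pow_pos (Nat.pos_of_mem_primeFactors hp) _
  have hTM : T.natAbs ∣ c.natAbs * M ^ D := by
    refine (Nat.dvd_iff_prime_pow_dvd_dvd _ _).2 fun p k hp hk => ?_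
    rcases Nat.eq_zero_or_pos k with rfl | hk0
    · simp
    have hm : p ∈ T.natAbs.primeFactors :=
      Nat.mem_primeFactors.2 ⟨hp, (dvd_pow_self p hk0.ne').trans hk, hT'⟩
    refine (pow_dvd_pow p (((hp.pow_dvd_iff_le_factorization hT').1 hk).trans (he2 p))).trans ?_
    rw [pow_add, pow_mul]
    exact mul_dvd_mul (Nat.ordProj_dvd _ _)
      (pow_dvd_pow_of_dvd (hM ▸ dvd_prod_of_mem (fun p => p ^ e p) hm) D)
  have hTM' : |(T : ℝ)| ≤ |(c : ℝ)| * (M : ℝ) ^ D := by
    have := Nat.le_of_dvd (by positivity) hTM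
    rw [← Int.cast_abs, ← Int.cast_abs, ← Nat.cast_natAbs, ← Nat.cast_natAbs]
    exact_mod_cast this
  have hD0 : (0 : ℝ) < D := by exact_mod_cast hD
  obtain ⟨g, hg⟩ : ∃ g : ℝ, g = G ^ ((1 : ℝ) / D) := ⟨_, rfl⟩
  have hg1 : 1 ≤ g := hg ▸ Real.one_le_rpow hG (by positivity)
  have hgD : g ^ D = G := by
    rw [hg, one_div, Real.rpow_inv_natCast_pow (by linarith) (by omega)]
  obtain ⟨r, hr⟩ : ∃ r : ℕ, r = ⌈(D + 2) * g⌉₊ := ⟨_, rfl⟩
  have hr1 : (D + 2) * g ≤ r := hr ▸ Nat.le_ceil _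
  have hr2 : (r : ℝ) ≤ (D + 3) * g := by
    have := Nat.ceil_lt_add_one (show 0 ≤ ((D : ℝ) + 2) * g by positivity)
    rw [← hr] at this
    linarith
  have hr0 : (0 : ℝ) < r := lt_of_lt_of_le (by positivity) hr1
  have hrD : (D + 1) * G < (r : ℝ) ^ D := by
    calc (D + 1) * G < (D + 2) * G := by nlinarith
      _ ≤ (D + 2) ^ D * g ^ D := by
          rw [hgD]
          exact mul_le_mul_of_nonneg_right (le_self_pow₀ (by linarith) (by omega)) (by linarith)
      _ = ((D + 2) * g) ^ D := (mul_pow _ _ _).symm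
      _ ≤ (r : ℝ) ^ D := pow_le_pow_left₀ (by positivity) hr1 D
  have key : Y.card ≤ D ^ T.natAbs.primeFactors.card * (r * D * 2) := by
    refine ContAux.refine (fun p y => y % (p : ℤ) ^ e p) D _ _ Y (fun p hp => ?_) fun Z hZ h => ?_
    · have hp' := Nat.prime_of_mem_primeFactors hp
      refine padic hp' hP (k := T.natAbs.factorization p) (v := c.natAbs.factorization p) ?_
        (he1 p) hD fun y hy => Dvd.dvd.trans ?_ (hY y hy).1
      · rw [hPc, ← Int.natCast_pow, Int.natCast_dvd]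
        exact Nat.pow_succ_factorization_not_dvd hc' hp'
      · rw [← Int.natCast_pow, Int.natCast_dvd]
        exact Nat.ordProj_dvd _ _
    · refine arch hP (M := (M : ℤ)) (by exact_mod_cast hM0) (by exact_mod_cast hr0)
        (a := |(T : ℝ)| * G) ?_ (fun y hy => (hY y (hZ hy)).2) fun y hy y' hy' => ?_
      · have hc0 : 0 < |(c : ℝ)| := abs_pos.2 (by exact_mod_cast hc)
        have hM1 : (0 : ℝ) < (M : ℝ) ^ D := by positivity
        rw [hPc, ← mul_div_assoc]
        push_cast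
        rw [mul_pow, div_lt_iff₀ (by positivity)]
        calc (D + 1) * (|(T : ℝ)| * G) = |(T : ℝ)| * ((D + 1) * G) := by ring
          _ ≤ |(c : ℝ)| * (M : ℝ) ^ D * ((D + 1) * G) :=
              mul_le_mul_of_nonneg_right hTM' (by positivity)
          _ < |(c : ℝ)| * (M : ℝ) ^ D * (r : ℝ) ^ D :=
              mul_lt_mul_of_pos_left hrD (by positivity)
          _ = |(c : ℝ)| * ((r : ℝ) ^ D * (M : ℝ) ^ D) := by ring
      · rw [hM]
        push_cast
        refine prod_dvd_of_coprime (fun p hp q hq hpq => ?_) fun p hp =>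
          Int.modEq_iff_dvd.1 (h p hp y' hy' y hy)
        exact (Nat.isCoprime_iff_coprime.2 ((Nat.coprime_primes
          (Nat.prime_of_mem_primeFactors hp) (Nat.prime_of_mem_primeFactors hq)).2 hpq)).pow
  rw [← hg]
  calc (Y.card : ℝ) ≤ (D : ℝ) ^ T.natAbs.primeFactors.card * (r * D * 2) := by exact_mod_cast key
    _ ≤ (D : ℝ) ^ T.natAbs.primeFactors.card * ((D + 3) * g * D * 2) := by gcongr
    _ = (D + 3) * D * 2 * (D : ℝ) ^ T.natAbs.primeFactors.card * g := by ring

end Pool.Agent.MP_542436_nt.H3
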