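import Pool.Agent.MP_542436_nt.Sp.Spec

set_option autoImplicit false

namespace Pool.Agent.MP_542436_nt.H3

open Polynomial NumberField Finset Pool.Agent.MP_542436_nt.Sp

namespace PlcAux

theorem sum_le {K ι : Type} [Field K] {v : AbsoluteValue K ℝ} (hv : IsNonarchimedean v)
    (s : Finset ι) (f : ι → K) {B : ℝ} (hB : 0 ≤ B) (h : ∀ i ∈ s, v (f i) ≤ B) :
    v (∑ i ∈ s, f i) ≤ B := by
  classical
  induction s using Finset.induction_on with
  | empty => simpa using hB
  | insert i s hi ih =>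
    rw [Finset.sum_insert hi]
    exact (hv _ _).trans (max_le (h i (mem_insert_self _ _))
      (ih fun j hj => h j (mem_insert_of_mem hj)))

theorem cast_le {K : Type} [Field K] {v : AbsoluteValue K ℝ} (hv : IsNonarchimedean v) (n : ℤ) :
    v (n : K) ≤ 1 :=
  hv.apply_intCast_le_one

theorem int_le {K : Type} [Field K] {v : AbsoluteValue K ℝ} (hv : IsNonarchimedean v) {α : K}
    (h : IsIntegral ℤ α) : v α ≤ 1 := by
  by_contra h1
  rw [not_le] at h1
  obtain ⟨P, hP, h0⟩ := h
  rw [← aeval_def, hP.as_sum, map_add, map_sum] at h0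
  simp only [map_pow, aeval_X, map_mul, eq_intCast, map_intCast] at h0
  rcases hn : P.natDegree with _ | n
  · rw [hn] at h0; simp at h0
  · rw [hn] at h0
    have h2 : v (∑ i ∈ range (n + 1), ((P.coeff i : ℤ) : K) * α ^ i) ≤ v α ^ n := by
      refine sum_le hv _ _ (by positivity) fun i hi => ?_
      rw [map_mul, map_pow]
      calc v ((P.coeff i : ℤ) : K) * v α ^ i ≤ 1 * v α ^ n :=
            mul_le_mul (cast_le hv _)
              (pow_le_pow_right₀ h1.le (Nat.lt_succ_iff.1 (mem_range.1 hi)))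
              (by positivity) zero_le_one
        _ = v α ^ n := one_mul _
    rw [← neg_eq_iff_add_eq_zero] at h0
    rw [← h0, v.map_neg, map_pow] at h2
    exact absurd h2 (not_le.2 (pow_lt_pow_right₀ h1 (Nat.lt_succ_self n)))

theorem unit_of {K : Type} [Field K] {p : ℕ} {v : AbsoluteValue K ℝ} (hv : Plc p v) {n : ℤ}
    (h : ¬ (p : ℤ) ∣ n) : v (n : K) = 1 := by
  refine le_antisymm (cast_le hv.na n) ?_
  by_contra h1
  rw [not_le] at h1
  have hp : Prime (p : ℤ) := Nat.prime_iff_prime_int.1 hv.prime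
  obtain ⟨a, b, hab⟩ := (hp.irreducible.coprime_iff_not_dvd).2 h
  have e : (a : K) * (p : K) + (b : K) * (n : K) = 1 := by
    exact_mod_cast congrArg (Int.cast : ℤ → K) hab
  have hp1 : (1 : ℝ) < p := by exact_mod_cast hv.prime.one_lt
  have h2 : v ((a : K) * (p : K)) < 1 := by
    rw [map_mul, hv.vp]
    calc v (a : K) * (1 / (p : ℝ)) ≤ 1 * (1 / (p : ℝ)) :=
          mul_le_mul_of_nonneg_right (cast_le hv.na a) (by positivity)
      _ < 1 := by rw [one_mul, div_lt_one (by linarith)]; exact hp1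
  have h3 : v ((b : K) * (n : K)) < 1 := by
    rw [map_mul]
    calc v (b : K) * v (n : K) ≤ 1 * v (n : K) :=
          mul_le_mul_of_nonneg_right (cast_le hv.na b) (v.nonneg _)
      _ < 1 := by rwa [one_mul]
  have h4 := hv.na ((a : K) * (p : K)) ((b : K) * (n : K))
  rw [e, map_one] at h4
  exact absurd h4 (not_le.2 (max_lt h2 h3))

theorem dvd_of {K : Type} [Field K] {p : ℕ} {v : AbsoluteValue K ℝ} (hv : Plc p v) (k : ℕ) :
    ∀ n : ℤ, v (n : K) ≤ 1 / (p : ℝ) ^ k → (p : ℤ) ^ k ∣ n := by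
  have hp1 : (1 : ℝ) < p := by exact_mod_cast hv.prime.one_lt
  induction k with
  | zero => intro n _; simp
  | succ k ih =>
    intro n hn
    have h1 : (p : ℤ) ∣ n := by
      by_contra h
      rw [unit_of hv h, le_div_iff₀ (by positivity), one_mul] at hn
      exact absurd hn (not_le.2 (one_lt_pow₀ hp1 (Nat.succ_ne_zero k)))
    obtain ⟨m, rfl⟩ := h1
    rw [pow_succ']
    refine mul_dvd_mul_left _ (ih m ?_)
    rw [Int.cast_mul, Int.cast_natCast, map_mul, hv.vp, pow_succ', ← one_div_mul_one_div] at hn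
    exact le_of_mul_le_mul_left hn (by positivity)

theorem gen_iff {K : Type} [Field K] [NumberField K] (ω : K) :
    IntermediateField.adjoin ℚ {ω} = ⊤ ↔ Gen ω := by
  rw [Field.primitive_element_iff_algHom_eq_of_eval' ℚ ℂ fun _ => IsAlgClosed.splits _]
  constructor
  · intro h σ τ e
    exact (RingHom.equivRatAlgHom K ℂ).injective (h e)
  · intro h σ τ e
    exact (RingHom.equivRatAlgHom K ℂ).symm.injective (h e)

theorem minp {K : Type} [Field K] [NumberField K] {d : ℕ} {θ : K} (h : St d θ) :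
    (minpoly ℤ θ).natDegree = d ∧ (minpoly ℚ θ).natDegree = d := by
  have h1 : (minpoly ℚ θ).natDegree = d :=
    ((Field.primitive_element_iff_minpoly_natDegree_eq ℚ θ).1 ((gen_iff θ).2 h.gen)).trans h.rk
  refine ⟨?_, h1⟩
  rw [← h1, minpoly.isIntegrallyClosed_eq_field_fractions' ℚ h.int,
    (minpoly.monic h.int).natDegree_map]

theorem norm {K : Type} [Field K] [NumberField K] (α : K) (hα : IsIntegral ℤ α) (h0 : α ≠ 0) :
    ∃ N : ℤ, N ≠ 0 ∧ |(N : ℝ)| ≤ house α ^ Module.finrank ℚ K ∧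
      ∀ (p : ℕ) (v : AbsoluteValue K ℝ), Plc p v →
        v (N : K) ≤ v α ∧ (v α < 1 → (p : ℤ) ∣ N) := by
  let x : 𝓞 K := ⟨α, hα⟩
  have hx : (Algebra.norm ℤ x : ℚ) = Algebra.norm ℚ α := Algebra.coe_norm_int x
  refine ⟨Algebra.norm ℤ x, fun h => ?_, ?_, fun p v hv => ?_⟩
  · rw [h, Int.cast_zero] at hx
    exact h0 (Algebra.norm_eq_zero_iff.1 hx.symm)
  · obtain ⟨σ⟩ : Nonempty (K →+* ℂ) := inferInstance
    have h1 := norm_norm_le_norm_mul_house_pow α σ
    rw [← hx, Int.norm_cast_rat, Int.norm_eq_abs] at h1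
    have h2 : 0 < Module.finrank ℚ K := Module.finrank_pos
    calc |((Algebra.norm ℤ x : ℤ) : ℝ)| ≤ ‖σ α‖ * house α ^ (Module.finrank ℚ K - 1) := h1
      _ ≤ house α * house α ^ (Module.finrank ℚ K - 1) :=
          mul_le_mul_of_nonneg_right (norm_embedding_le_house α σ)
            (pow_nonneg (house_nonneg α) _)
      _ = house α ^ Module.finrank ℚ K := by
          rw [← pow_succ', Nat.sub_add_cancel h2]
  · have h1 : v ((Algebra.norm ℤ x : ℤ) : K) ≤ v α := by
      have h2 := Ideal.absNorm_mem (Ideal.span {x})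
      rw [Ideal.absNorm_span_singleton, Ideal.mem_span_singleton] at h2
      obtain ⟨y, hy⟩ := h2
      have h3 : (((Algebra.norm ℤ x).natAbs : ℕ) : K) = α * (y : K) := by
        have := congrArg (algebraMap (𝓞 K) K) hy
        rwa [map_natCast, map_mul] at this
      have h4 : v ((Algebra.norm ℤ x : ℤ) : K) = v (((Algebra.norm ℤ x).natAbs : ℕ) : K) := by
        rcases Int.natAbs_eq (Algebra.norm ℤ x) with e | e
        · conv_lhs => rw [e, Int.cast_natCast]
        · conv_lhs => rw [e, Int.cast_neg, Int.cast_natCast, v.map_neg]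
      rw [h4, h3, map_mul]
      exact mul_le_of_le_one_right (v.nonneg _) (int_le hv.na y.isIntegral_coe)
    refine ⟨h1, fun h => ?_⟩
    by_contra h2
    rw [unit_of hv h2] at h1
    exact absurd h (not_lt.2 h1)

end PlcAux

theorem plc : PlcStmt where
  int_le _ _ _ _ _ hv h := PlcAux.int_le hv.na h
  dvd_of _ _ _ _ n k hv h := PlcAux.dvd_of hv k n h
  unit_of _ _ _ _ _ hv h := PlcAux.unit_of hv h
  norm _ _ _ α h h0 := PlcAux.norm α h h0
  gen K _ _ ω h7 hω := by
    refine (PlcAux.gen_iff ω).1 ?_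
    have := IntermediateField.isSimpleOrder_of_finrank_prime ℚ K (by rw [h7]; norm_num)
    refine (this.eq_bot_or_eq_top _).resolve_left fun h => ?_
    obtain ⟨q, hq⟩ := IntermediateField.mem_bot.1 (IntermediateField.adjoin_simple_eq_bot_iff.1 h)
    exact hω q (by rw [← hq]; simp)
  el_int K _ _ d θ c h := by
    refine IsIntegral.sum _ fun i _ => IsIntegral.mul ?_ (h.int.pow _)
    exact isIntegral_algebraMap (R := ℤ) (A := K) (x := c i)
  el_inj K _ _ d θ c h h0 := by
    have h1 := (PlcAux.minp h).2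
    subst h1
    have h2 := Fintype.linearIndependent_iff.1 (linearIndependent_pow (K := ℚ) θ)
      (fun i => (c i : ℚ)) (by
        rw [← h0, el]
        refine Finset.sum_congr rfl fun i _ => ?_
        rw [Algebra.smul_def]
        simp)
    funext i
    exact_mod_cast h2 i
  el_le K _ _ d θ := by
    have hs : 0 ≤ ∑ i : Fin d, house (θ ^ (i : ℕ)) := sum_nonneg fun i _ => house_nonneg _
    refine ⟨1 + ∑ i : Fin d, house (θ ^ (i : ℕ)), by linarith, fun c N hN hc => ?_⟩
    calc house (el θ c) ≤ ∑ i : Fin d, house ((c i : K) * θ ^ (i : ℕ)) :=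
          house_sum_le_sum_house _ _
      _ ≤ ∑ i : Fin d, house (θ ^ (i : ℕ)) * N := by
          refine sum_le_sum fun i _ => (house_mul_le _ _).trans ?_
          rw [house_intCast, mul_comm, Int.cast_abs]
          exact mul_le_mul_of_nonneg_left (hc i) (house_nonneg _)
      _ ≤ (1 + ∑ i : Fin d, house (θ ^ (i : ℕ))) * N := by
          rw [← sum_mul, add_mul]; linarith
  minp _ _ _ _ _ h := PlcAux.minp h

end Pool.Agent.MP_542436_nt.H3
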