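import Pool.Agent.MP_542436_nt.Sp.Spec

set_option autoImplicit false

namespace Pool.Agent.MP_542436_nt.H3

open Polynomial Finset Pool.Agent.MP_542436_nt.Sp

namespace SchwAux

theorem natDegree_le {R : Type} [CommRing R] {m n : ℕ} {f : R[X][X]}
    (hf : Dg (m + 1) (n + 1) f) : f.natDegree ≤ n := by
  refine natDegree_le_iff_coeff_eq_zero.2 fun k hk => ?_
  ext i
  by_contra h
  exact absurd (hf i k h).2 (by omega)

theorem coeff_natDegree_le {R : Type} [CommRing R] {m n : ℕ} {f : R[X][X]}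
    (hf : Dg (m + 1) (n + 1) f) (k : ℕ) : (f.coeff k).natDegree ≤ m := by
  refine natDegree_le_iff_coeff_eq_zero.2 fun i hi => ?_
  by_contra h
  exact absurd (hf i k h).1 (by omega)

theorem evalEval_eq {R : Type} [CommRing R] {m n : ℕ} {f : R[X][X]}
    (hf : Dg (m + 1) (n + 1) f) (s t : R) : f.evalEval s t =
      ∑ i ∈ range (m + 1), ∑ k ∈ range (n + 1), cf f i k * s ^ i * t ^ k := by
  rw [evalEval, eval_eq_sum_range' (Nat.lt_succ_of_le (natDegree_le hf)), eval_finsetSum,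
    sum_comm]
  refine sum_congr rfl fun k _ => ?_
  rw [eval_mul, eval_pow, eval_C,
    eval_eq_sum_range' (Nat.lt_succ_of_le (coeff_natDegree_le hf k)), sum_mul]
  rfl

theorem dg_up (hB : BaseStmt) (R : Type) [CommRing R] {M N : ℕ} {f : ℤ[X][X]} (hf : Dg M N f) :
    Dg M N (up R f) := by
  intro i k h
  refine hf i k fun h0 => h ?_
  rw [hB.cf_up, h0, Int.cast_zero]

theorem dg_ds (hB : BaseStmt) {m n : ℕ} {f : ℤ[X][X]} (hf : Dg (m + 1) (n + 1) f) :
    Dg (m - 1 + 1) (n + 1) (ds f) := by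
  intro i k h
  rw [cf, hB.coeff_ds, coeff_derivative] at h
  have := hf (i + 1) k (left_ne_zero_of_mul h)
  omega

theorem hval_cast (hB : BaseStmt) {R : Type} [CommRing R] {m n : ℕ} {f : ℤ[X][X]}
    (hf : Dg (m + 1) (n + 1) f) {x y a b : ℤ} {s t : R} (hs : s * y = x) (ht : t * b = a) :
    ((hval m n f x y a b : ℤ) : R) = (y : R) ^ m * (b : R) ^ n * (up R f).evalEval s t := by
  rw [evalEval_eq (dg_up hB R hf), hval, mul_sum]
  push_cast
  refine sum_congr rfl fun i hi => ?_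
  rw [mul_sum]
  refine sum_congr rfl fun k hk => ?_
  obtain ⟨i', rfl⟩ := Nat.exists_eq_add_of_le (Nat.lt_succ_iff.1 (mem_range.1 hi))
  obtain ⟨k', rfl⟩ := Nat.exists_eq_add_of_le (Nat.lt_succ_iff.1 (mem_range.1 hk))
  rw [hB.cf_up, ← hs, ← ht, Nat.add_sub_cancel_left, Nat.add_sub_cancel_left]
  ring

theorem der_eval (hB : BaseStmt) {R : Type} [CommRing R] (f : R[X][X]) (t : R) :
    derivative (f.eval (C t)) = (ds f).eval (C t) := by
  have h1 : (ds f).natDegree < f.natDegree + 1 := by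
    refine Nat.lt_succ_of_le (natDegree_le_iff_coeff_eq_zero.2 fun k hk => ?_)
    rw [hB.coeff_ds, coeff_eq_zero_of_natDegree_lt hk, map_zero]
  rw [eval_eq_sum_range, eval_eq_sum_range' h1, map_sum]
  refine sum_congr rfl fun k _ => ?_
  rw [hB.coeff_ds, derivative_mul, ← C_pow, derivative_C, mul_zero, add_zero]

theorem split (hB : BaseStmt) {R : Type} [CommRing R] (f : R[X][X]) (s0 t0 : R) :
    ∃ (A : R[X]) (B : R[X][X]), A.eval s0 = (ds f).evalEval s0 t0 ∧
      ∀ s t, f.evalEval s t =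
        f.evalEval s0 t0 + (s - s0) * A.eval s + (t - t0) * B.evalEval s t := by
  obtain ⟨B, hB'⟩ := X_sub_C_dvd_sub_C_eval (p := f) (a := C t0)
  obtain ⟨A, hA⟩ := X_sub_C_dvd_sub_C_eval (p := f.eval (C t0)) (a := s0)
  refine ⟨A, B, ?_, fun s t => ?_⟩
  · have h := congrArg (fun p => eval s0 (derivative p)) hA
    simp only [derivative_sub, derivative_C, sub_zero, derivative_mul, derivative_X, one_mul,
      eval_add, eval_mul, eval_sub, eval_X, eval_C, sub_self, zero_mul, add_zero] at h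
    rw [← h, der_eval hB]
  · have h1 := congrArg (evalEval s t) hB'
    have h2 := congrArg (eval s) hA
    simp only [evalEval_sub, evalEval_C, evalEval_mul, evalEval_X, eval_C] at h1
    simp only [eval_sub, eval_C, eval_mul, eval_X] at h2
    have h3 : f.evalEval s0 t0 = eval s0 (eval (C t0) f) := rfl
    rw [h3]
    linear_combination h1 + h2

theorem core (hB : BaseStmt) {R : Type} [CommRing R] [IsDomain R] {π : R} (hπ : Prime π)
    (g : R[X][X]) (k : ℕ) : ∀ (s t : ℕ → R) (h : R[X][X]),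
      (∀ i, i ≤ k → ¬ π ∣ (ds g).evalEval (s i) (t i) ∧ π ∣ s i - s 0 ∧ π ∣ t i - t 0 ∧
        g.evalEval (s i) (t i) = 0) →
      (∀ i j, i < j → j ≤ k → t i ≠ t j) → (∀ i, i < k → h.evalEval (s i) (t i) = 0) →
      π ^ k ∣ h.evalEval (s k) (t k) := by
  induction k with
  | zero => intro s t h _ _ _; simp
  | succ k ih =>
    intro s t h h1 h2 h3
    obtain ⟨A, B, hA, hg⟩ := split hB g (s 0) (t 0)
    obtain ⟨A', B', -, hh⟩ := split hB h (s 0) (t 0)
    have key : ∀ i, i ≤ k + 1 → A.eval (s i) * h.evalEval (s i) (t i) =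
        (t i - t 0) * (C A * B' - C A' * B).evalEval (s i) (t i) := by
      intro i hi
      have e1 := hg (s i) (t i)
      have e2 := hh (s i) (t i)
      rw [(h1 i hi).2.2.2, (h1 0 (Nat.zero_le _)).2.2.2] at e1
      rw [h3 0 (Nat.succ_pos k)] at e2
      simp only [evalEval_sub, evalEval_mul, evalEval_C]
      linear_combination A.eval (s i) * e2 - A'.eval (s i) * e1
    have h4 := ih (fun i => s (i + 1)) (fun i => t (i + 1)) (C A * B' - C A' * B)
      (fun i hi => by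
        obtain ⟨a1, a2, a3, a4⟩ := h1 (i + 1) (by omega)
        obtain ⟨-, b2, b3, -⟩ := h1 (0 + 1) (by omega)
        exact ⟨a1, by simpa using dvd_sub a2 b2, by simpa using dvd_sub a3 b3, a4⟩)
      (fun i j hij hj => h2 (i + 1) (j + 1) (by omega) (by omega))
      (fun i hi => by
        have e := key (i + 1) (by omega)
        rw [h3 (i + 1) (by omega), mul_zero] at e
        exact (mul_eq_zero.1 e.symm).resolve_left
          (sub_ne_zero.2 (h2 0 (i + 1) (by omega) (by omega)).symm))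
    have h5 : π ^ (k + 1) ∣ A.eval (s (k + 1)) * h.evalEval (s (k + 1)) (t (k + 1)) := by
      rw [key (k + 1) le_rfl, pow_succ']
      exact mul_dvd_mul (h1 (k + 1) le_rfl).2.2.1 h4
    refine hπ.pow_dvd_of_dvd_mul_left _ (fun h6 => (h1 0 (Nat.zero_le _)).1 ?_) h5
    have h7 : π ∣ A.eval (s (k + 1)) - A.eval (s 0) :=
      (h1 (k + 1) le_rfl).2.1.trans (sub_dvd_eval_sub _ _ A)
    rw [← hA]
    simpa using dvd_sub h6 h7

theorem dvd_iff {q : ℕ} [Fact q.Prime] (k : ℕ) (n : ℤ) :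
    (q : ℤ_[q]) ^ k ∣ (n : ℤ_[q]) ↔ (q : ℤ) ^ k ∣ n := by
  rw [PadicInt.pow_p_dvd_int_iff]

theorem dvd_iff_one {q : ℕ} [Fact q.Prime] (n : ℤ) :
    (q : ℤ_[q]) ∣ (n : ℤ_[q]) ↔ (q : ℤ) ∣ n := by
  simpa using dvd_iff (q := q) 1 n

theorem isUnit_cast {q : ℕ} [Fact q.Prime] {n : ℤ} (h : ¬ (q : ℤ) ∣ n) : IsUnit (n : ℤ_[q]) := by
  by_contra h1
  exact h ((dvd_iff_one n).1 ((PadicInt.norm_lt_one_iff_dvd _).1 (PadicInt.not_isUnit_iff.1 h1)))

end SchwAux

open SchwAux

theorem schw (hB : BaseStmt) : SchwStmt := by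
  intro q hq m1 n1 m n k g h x y a b _ hg hh h1 h2 h3
  have : Fact q.Prime := ⟨hq⟩
  have hy : ∀ i, i ≤ k → IsUnit (y i : ℤ_[q]) := fun i hi =>
    isUnit_cast fun e => (h1 i hi).1 ((e.mul_right _).mul_right _)
  have hb : ∀ i, i ≤ k → IsUnit (b i : ℤ_[q]) := fun i hi =>
    isUnit_cast fun e => (h1 i hi).1 ((e.mul_left _).mul_right _)
  obtain ⟨s, hs⟩ : ∃ s : ℕ → ℤ_[q], ∀ i, i ≤ k → s i * y i = x i :=
    ⟨fun i => x i * Ring.inverse (y i : ℤ_[q]), fun i hi => by
      rw [mul_assoc, Ring.inverse_mul_cancel _ (hy i hi), mul_one]⟩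
  obtain ⟨t, ht⟩ : ∃ t : ℕ → ℤ_[q], ∀ i, i ≤ k → t i * b i = a i :=
    ⟨fun i => a i * Ring.inverse (b i : ℤ_[q]), fun i hi => by
      rw [mul_assoc, Ring.inverse_mul_cancel _ (hb i hi), mul_one]⟩
  have hu : ∀ (i : ℕ) (c d : ℕ), i ≤ k → IsUnit ((y i : ℤ_[q]) ^ c * (b i : ℤ_[q]) ^ d) :=
    fun i c d hi => ((hy i hi).pow c).mul ((hb i hi).pow d)
  rw [← dvd_iff, hval_cast hB hh (hs k le_rfl) (ht k le_rfl)]
  refine Dvd.dvd.mul_left (core hB PadicInt.prime_p (up ℤ_[q] g) k s t (up ℤ_[q] h)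
    (fun i hi => ?_) (fun i j hij hj e => h2 i j hij hj ?_) (fun i hi => ?_)) _
  · obtain ⟨a1, a2, a3, a4⟩ := h1 i hi
    refine ⟨fun e => a1 (Dvd.dvd.mul_left ?_ _), ?_, ?_, ?_⟩
    · rw [← dvd_iff_one, hval_cast hB (dg_ds hB hg) (hs i hi) (ht i hi), hB.up_ds]
      exact e.mul_left _
    · rw [← ((hy i hi).mul (hy 0 (Nat.zero_le _))).dvd_mul_left]
      rw [← dvd_iff_one] at a2
      convert a2 using 1
      push_cast
      rw [← hs i hi, ← hs 0 (Nat.zero_le _)]
      ring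
    · rw [← ((hb i hi).mul (hb 0 (Nat.zero_le _))).dvd_mul_left]
      rw [← dvd_iff_one] at a3
      convert a3 using 1
      push_cast
      rw [← ht i hi, ← ht 0 (Nat.zero_le _)]
      ring
    · have e := hval_cast hB hg (hs i hi) (ht i hi)
      rw [a4, Int.cast_zero] at e
      exact ((hu i _ _ hi).mul_right_eq_zero).1 e.symm
  · have : ((a i * b j : ℤ) : ℤ_[q]) = ((a j * b i : ℤ) : ℤ_[q]) := by
      push_cast
      rw [← ht i (by omega), ← ht j hj, e]
      ring
    exact_mod_cast this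
  · have e := hval_cast hB hh (hs i hi.le) (ht i hi.le)
    rw [h3 i hi, Int.cast_zero] at e
    exact ((hu i _ _ hi.le).mul_right_eq_zero).1 e.symm

theorem classes (hB : BaseStmt) : ClassesStmt := by
  intro q hq m1 n1 g ι x y a b E _ hg h1
  classical
  have : Fact q.Prime := ⟨hq⟩
  have hy : ∀ i ∈ E, (y i : ZMod q) ≠ 0 := fun i hi e =>
    (h1 i hi).1 ((((ZMod.intCast_zmod_eq_zero_iff_dvd _ _).1 e).mul_right _).mul_right _)
  have hb : ∀ i ∈ E, (b i : ZMod q) ≠ 0 := fun i hi e =>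
    (h1 i hi).1 ((((ZMod.intCast_zmod_eq_zero_iff_dvd _ _).1 e).mul_left _).mul_right _)
  let φ : ι → ZMod q × ZMod q := fun i => ((x i : ZMod q) / y i, (a i : ZMod q) / b i)
  let G : ZMod q → (ZMod q)[X] := fun t => (up (ZMod q) g).eval (C t)
  let T : Finset (ZMod q × ZMod q) :=
    univ.biUnion fun t => (G t).roots.toFinset.image fun s => (s, t)
  have hG : ∀ t, (G t).natDegree ≤ m1 := by
    intro t
    have hd := dg_up hB (ZMod q) hg
    simp only [G]
    rw [eval_eq_sum_range]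
    refine natDegree_sum_le_of_forall_le _ _ fun k _ => ?_
    rw [← C_pow]
    exact (natDegree_mul_C_le _ _).trans (coeff_natDegree_le hd k)
  have hT : T.card ≤ m1 * q := by
    refine (card_biUnion_le_card_mul _ _ m1 fun t _ => ?_).trans ?_
    · exact card_image_le.trans ((Multiset.toFinset_card_le _).trans
        ((card_roots' _).trans (hG t)))
    · rw [card_univ, ZMod.card, mul_comm]
  have hφ : ∀ i ∈ E, φ i ∈ T := by
    intro i hi
    have hs : (x i : ZMod q) / y i * y i = x i := div_mul_cancel₀ _ (hy i hi)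
    have ht : (a i : ZMod q) / b i * b i = a i := div_mul_cancel₀ _ (hb i hi)
    refine mem_biUnion.2 ⟨_, mem_univ ((a i : ZMod q) / b i), mem_image.2
      ⟨(x i : ZMod q) / y i, Multiset.mem_toFinset.2 ((mem_roots fun e => ?_).2 ?_), rfl⟩⟩
    · refine (h1 i hi).1 (Dvd.dvd.mul_left ((ZMod.intCast_zmod_eq_zero_iff_dvd _ _).1 ?_) _)
      rw [hval_cast hB (dg_ds hB hg) hs ht, hB.up_ds, evalEval, ← der_eval hB]
      simp only [G] at e
      rw [e]
      simp
    · have e := hval_cast hB hg hs ht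
      rw [(h1 i hi).2, Int.cast_zero] at e
      exact (mul_eq_zero.1 e.symm).resolve_left
        (mul_ne_zero (pow_ne_zero _ (hy i hi)) (pow_ne_zero _ (hb i hi)))
  obtain ⟨p, -, hp⟩ := exists_max_image (univ : Finset (ZMod q × ZMod q))
    (fun p => (E.filter fun i => φ i = p).card) univ_nonempty
  refine ⟨E.filter fun i => φ i = p, filter_subset _ _, ?_, fun i hi j hj => ?_⟩
  · refine (card_le_mul_card_image_of_maps_to hφ _ fun c _ => hp c (mem_univ c)).trans ?_
    rw [mul_comm]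
    exact Nat.mul_le_mul_right _ hT
  · obtain ⟨hi, ei⟩ := mem_filter.1 hi
    obtain ⟨hj, ej⟩ := mem_filter.1 hj
    have e := Prod.ext_iff.1 (ei.trans ej.symm)
    have e1 := (div_eq_div_iff (hy i hi) (hy j hj)).1 e.1
    have e2 := (div_eq_div_iff (hb i hi) (hb j hj)).1 e.2
    refine ⟨(ZMod.intCast_zmod_eq_zero_iff_dvd _ _).1 ?_,
      (ZMod.intCast_zmod_eq_zero_iff_dvd _ _).1 ?_⟩
    · push_cast; exact sub_eq_zero.2 e1
    · push_cast; exact sub_eq_zero.2 e2

end Pool.Agent.MP_542436_nt.H3
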